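import Pool.Agent.Helper581.Sand.Two

set_option autoImplicit false

namespace Pool.Agent.Results.MP_f7f40d_pr.UpperBound

open Pool.Agent.Helper581.Sand

/-- Upper bounds for the critical Poisson density of the abelian sandpile on `ℤ^d`:
`λ_c ≤ 2 d - 1 - √d / 12` for every `d ≥ 2`, `λ_c ≤ 2 d - 1 - √d / 2` for every `d ≥ 400`, and
`λ_c ≤ 2.85` for `d = 2`. In each case there is a density within the stated bound at which the
sandpile percolates almost surely. -/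
theorem result :
    (∀ d : ℕ, 2 ≤ d →
      (∃ l : ℝ, 0 < l ∧ l ≤ 2 * (d : ℝ) - 1 - √d / 12 ∧
        poissonField d l.toNNReal {ω | Percolates fun x => (ω x : ℤ)} = 1) ∧
      criticalDensity d ≤ 2 * (d : ℝ) - 1 - √d / 12) ∧
    (∀ d : ℕ, 400 ≤ d →
      (∃ l : ℝ, 0 < l ∧ l ≤ 2 * (d : ℝ) - 1 - √d / 2 ∧
        poissonField d l.toNNReal {ω | Percolates fun x => (ω x : ℤ)} = 1) ∧
      criticalDensity d ≤ 2 * (d : ℝ) - 1 - √d / 2) ∧
    poissonField 2 (57 / 20 : ℝ).toNNReal {ω | Percolates fun x => (ω x : ℤ)} = 1 ∧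
    criticalDensity 2 ≤ 57 / 20 := by
  have h2 : criticalDensity 2 ≤ 57 / 20 := crit_le _ (by norm_num) bound_two
  have hnum : (57 / 20 : ℝ) ≤ 2 * ((2 : ℕ) : ℝ) - 1 - √((2 : ℕ) : ℝ) / 12 := by
    have h3 : √((2 : ℕ) : ℝ) ≤ 1.5 := by
      rw [Real.sqrt_le_left (by norm_num)]
      norm_num
    push_cast at h3 ⊢
    linarith
  refine ⟨fun d hd => ?_, fun d hd => ?_, bound_two, h2⟩
  · rcases Nat.lt_or_ge 2 d with h | h
    · obtain ⟨l, hl0, hl1, hl2⟩ := bound_three h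
      exact ⟨⟨l, hl0, hl1, hl2⟩, (crit_le l hl0 hl2).trans hl1⟩
    · obtain rfl : d = 2 := by omega
      exact ⟨⟨57 / 20, by norm_num, hnum, bound_two⟩, h2.trans hnum⟩
  · obtain ⟨l, hl0, hl1, hl2⟩ := bound_large hd
    exact ⟨⟨l, hl0, hl1, hl2⟩, (crit_le l hl0 hl2).trans hl1⟩

end Pool.Agent.Results.MP_f7f40d_pr.UpperBound
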